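import Pool.Agent.H14.Pe1
set_option autoImplicit false

open Finset Polynomial Equiv

theorem Pool.Agent.Results.MP_9d2565_co.Interlace.result (l : ℕ → ℝ) (hl : ∀ k, 0 < l k) (n : ℕ) :
    ∃ (a b : ℝ) (f : Fin n → ℝ) (g : Fin (n + 1) → ℝ), a ≠ 0 ∧ b ≠ 0 ∧
      (∑ σ : Perm (Fin (n + 1)), ∏ k ∈ univ.filter (fun k : Fin n => σ k.succ < σ k.castSucc),
        (C (l (k + 1)) * X)) = C a * ∏ i, (X - C (f i)) ∧
      (∑ σ : Perm (Fin (n + 1 + 1)),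
        ∏ k ∈ univ.filter (fun k : Fin (n + 1) => σ k.succ < σ k.castSucc),
          (C (l (k + 1)) * X)) = C b * ∏ i, (X - C (g i)) ∧
      g 0 ≤ 0 ∧ ∀ i : Fin n, g i.succ ≤ f i ∧ f i ≤ g i.castSucc :=
  Pool.Agent.H14.Pe.main l hl n
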